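import Pool.Agent.Helper85.LN.Goals

/-! Project LN, packet ENCV: codes of violations. -/

namespace Pool.Agent.Helper49.LN

open Pool.Agent.Helper85.LN

theorem codeW_inj (m : ℕ) : Function.Injective (codeW (m := m)) := by
  refine List.map_injective_iff.2 ?_
  rintro ⟨a, b⟩ ⟨c, d⟩ h
  have h1 : (a : ℕ) = c := congrArg Prod.fst h
  have h2 : b = d := congrArg Prod.snd h
  rw [h2, Fin.ext h1]

theorem exists_codeW {m : ℕ} {w : WC} (h : OkC m w) : ∃ w' : List (S (Fin m)), codeW w' = w := by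
  induction w with
  | nil => exact ⟨[], rfl⟩
  | cons s w ih =>
    obtain ⟨w', rfl⟩ := ih fun t ht => h t (List.mem_cons_of_mem _ ht)
    exact ⟨(⟨s.1, h s List.mem_cons_self⟩, s.2) :: w', rfl⟩

theorem ok_codeW {m : ℕ} (w : List (S (Fin m))) : OkC m (codeW w) := by
  intro s hs
  obtain ⟨t, -, rfl⟩ := List.mem_map.1 hs
  exact t.1.2

theorem exists_letters {d : ℕ} {u : List ℕ} (h : ∀ a ∈ u, a < d) :
    ∃ u' : List (Fin d), (u'.map fun a : Fin d => (a : ℕ)) = u := by
  induction u with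
  | nil => exact ⟨[], rfl⟩
  | cons a u ih =>
    obtain ⟨u', rfl⟩ := ih fun t ht => h t (List.mem_cons_of_mem _ ht)
    exact ⟨⟨a, h a List.mem_cons_self⟩ :: u', rfl⟩

theorem letters_lt {d : ℕ} (u : List (Fin d)) : ∀ a ∈ (u.map fun a : Fin d => (a : ℕ)), a < d := by
  intro a ha
  obtain ⟨t, -, rfl⟩ := List.mem_map.1 ha
  exact t.2

theorem letters_inj (d : ℕ) : Function.Injective fun u : List (Fin d) => u.map fun a : Fin d => (a : ℕ) :=
  List.map_injective_iff.2 Fin.val_injective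

theorem exists_words {m : ℕ} {L : List WC} (h : ∀ s ∈ L, OkC m s) :
    ∃ L' : List (List (S (Fin m))), L'.map codeW = L := by
  induction L with
  | nil => exact ⟨[], rfl⟩
  | cons s L ih =>
    obtain ⟨L', rfl⟩ := ih fun t ht => h t (List.mem_cons_of_mem _ ht)
    obtain ⟨w, rfl⟩ := exists_codeW (h s List.mem_cons_self)
    exact ⟨w :: L', rfl⟩

theorem mem_codes {m : ℕ} {w : List (S (Fin m))} {L : List (List (S (Fin m)))} :
    codeW w ∈ L.map codeW ↔ w ∈ L := by
  constructor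
  · intro h
    obtain ⟨w', hw, h⟩ := List.mem_map.1 h
    rwa [← codeW_inj m h]
  · exact fun h => List.mem_map.2 ⟨w, h, rfl⟩

theorem len_enc {m d : ℕ} (A : Auto (Fin m) (Fin d)) : (enc A).2.1.length = m := by
  simp [enc]

theorem bind_val {d : ℕ} (u : List (Fin d)) :
    (u >>= fun a => pure (a : ℕ)) = u.map fun a : Fin d => (a : ℕ) := by
  induction u with
  | nil => rfl
  | cons a u ih => exact congrArg (List.cons (a : ℕ)) ih

theorem vio_iff (h0 : S_ENC0) {m d : ℕ} (A : Auto (Fin m) (Fin d)) (w : List (S (Fin m)))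
    (u v : List (Fin d)) (L : List (List (S (Fin m)))) :
    VioC (enc A) (codeW w, (u.map fun a : Fin d => (a : ℕ)), (v.map fun a : Fin d => (a : ℕ)), L.map codeW) ↔
      (A.val w u = u ∧ secw A w u ∈ L ∧
        (∀ s ∈ L, ∀ a, A.toWA.ltw s a = a ∧ A.toWA.scw s a ∈ L) ∧ A.val w v ≠ v) := by
  obtain ⟨e1, -, e3, e4'⟩ := h0
  have e4 : ∀ (w : List (S (Fin m))) (u : List (Fin d)),
      actC (tabA (enc A)) (codeW w) (u.map fun a : Fin d => (a : ℕ)) =
        ((A.val w u).map fun a : Fin d => (a : ℕ), codeW (secw A w u)) := by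
    intro w u
    have h := e4' m d A w u
    rwa [List.map_id', bind_val, List.map_id', bind_val] at h
  have hl := len_enc A
  have hrun : ∀ (s : List (S (Fin m))) (a : Fin d), runC (tabA (enc A)) (codeW s) a =
      ((A.toWA.ltw s a : ℕ), codeW (A.toWA.scw s a)) := fun s a =>
    e1 m d (tabA (enc A)) A.toWA (e3 m d A) s a
  unfold VioC
  simp only [e4]
  constructor
  · rintro ⟨-, h1, h2, h3, h4⟩
    refine ⟨letters_inj d h1, mem_codes.1 h2, fun s hs a => ?_, fun h => h4 (by rw [h])⟩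
    obtain ⟨h5, h6⟩ := h3 (codeW s) (mem_codes.2 hs) a a.2
    rw [hrun] at h5 h6
    exact ⟨Fin.ext h5, mem_codes.1 h6⟩
  · rintro ⟨h1, h2, h3, h4⟩
    refine ⟨⟨?_, letters_lt u, letters_lt v, ?_⟩, by rw [h1], mem_codes.2 h2, ?_, fun h =>
      h4 (letters_inj d h)⟩
    · rw [hl]
      exact ok_codeW w
    · intro s hs
      obtain ⟨s', -, rfl⟩ := List.mem_map.1 hs
      rw [hl]
      exact ok_codeW s'
    · intro s hs a ha
      obtain ⟨s', hs', rfl⟩ := List.mem_map.1 hs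
      have h5 := h3 s' hs' ⟨a, ha⟩
      have h6 := hrun s' ⟨a, ha⟩
      simp only at h6
      rw [h6]
      exact ⟨congrArg Fin.val h5.1, mem_codes.2 h5.2⟩

theorem encv : S_ENCV := by
  intro h0 m d A
  constructor
  · rintro ⟨⟨w, u, v, L⟩, h⟩
    have h' := h
    obtain ⟨⟨hw, hu, hv, hL⟩, -⟩ := h'
    rw [len_enc A] at hw hL
    obtain ⟨w', rfl⟩ := exists_codeW hw
    obtain ⟨u', rfl⟩ := exists_letters hu
    obtain ⟨v', rfl⟩ := exists_letters hv
    obtain ⟨L', rfl⟩ := exists_words hL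
    exact ⟨w', u', v', L', (vio_iff h0 A w' u' v' L').1 h⟩
  · rintro ⟨w, u, v, L, h⟩
    exact ⟨_, (vio_iff h0 A w u v L).2 h⟩

end Pool.Agent.Helper49.LN
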